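import Pool.Agent.H30.Lad

set_option autoImplicit false

namespace Pool.Agent.Results.MP_4977a6_gt.Ladder

open Set Filter Topology

variable {X : Type} [TopologicalSpace X]

/-- Open covers. -/
def OCov (𝒰 : Set (Set X)) : Prop := (∀ U ∈ 𝒰, IsOpen U) ∧ ⋃₀ 𝒰 = univ

/-- Menger spaces. -/
def Menger (X : Type) [TopologicalSpace X] : Prop :=
  ∀ 𝒰 : ℕ → Set (Set X), (∀ n, OCov (𝒰 n)) →
    ∃ F : ℕ → Set (Set X), (∀ n, (F n).Finite ∧ F n ⊆ 𝒰 n) ∧ ⋃₀ (⋃ n, F n) = univ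

/-- Bob has a winning strategy in the Menger game. -/
def BobWinsM (X : Type) [TopologicalSpace X] : Prop :=
  ∃ σ : (n : ℕ) → (Fin (n + 1) → Set (Set X)) → (Fin n → Set (Set X)) → Set (Set X),
    ∀ 𝒰 F : ℕ → Set (Set X), (∀ n, F n = σ n (fun i => 𝒰 i) (fun i => F i)) → (∀ n, OCov (𝒰 n)) →
      (∀ n, (F n).Finite ∧ F n ⊆ 𝒰 n) ∧ ⋃₀ (⋃ n, F n) = univ

/-- A move of Alice in the neighbourhood assignment game: a set `Y` and an assignment `V`. -/
abbrev Move (X : Type) := Set X × (X → Set X)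

/-- The part of the space not covered before round `n`. -/
def Rest (A : ℕ → Move X) (D : ℕ → Set X) (n : ℕ) : Set X := (⋃ j < n, ⋃ x ∈ D j, (A j).2 x)ᶜ

/-- Alice's move in round `n` is legal. -/
def AliceLegal (A : ℕ → Move X) (D : ℕ → Set X) (n : ℕ) : Prop :=
  (∀ x ∈ (A n).1, IsOpen ((A n).2 x) ∧ x ∈ (A n).2 x) ∧ (A n).1 ⊆ Rest A D n ∧
    Rest A D n ⊆ ⋃ x ∈ (A n).1, (A n).2 x

/-- Bob's move in round `n` is legal. -/
def BobLegal (A : ℕ → Move X) (D : ℕ → Set X) (n : ℕ) : Prop :=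
  D n ⊆ (A n).1 ∧ IsClosed (D n) ∧ DiscreteTopology (D n)

/-- Bob's choices cover the space. -/
def Covers (A : ℕ → Move X) (D : ℕ → Set X) : Prop := ⋃ n, ⋃ x ∈ D n, (A n).2 x = univ

/-- Bob has a winning strategy in the neighbourhood assignment game. -/
def BobWinsP (X : Type) [TopologicalSpace X] : Prop :=
  ∃ σ : (n : ℕ) → (Fin (n + 1) → Move X) → (Fin n → Set X) → Set X,
    ∀ (A : ℕ → Move X) (D : ℕ → Set X), (∀ n, D n = σ n (fun i => A i) (fun i => D i)) →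
      (∀ n, (∀ k ≤ n, AliceLegal A D k) → BobLegal A D n) ∧ ((∀ n, AliceLegal A D n) → Covers A D)

def resp {α : Type} (σ : (n : ℕ) → (Fin (n + 1) → α) → (Fin n → α) → α) (u : ℕ → α) (n : ℕ) : α :=
  σ n (fun i => u i) fun i => resp σ u i
termination_by n
decreasing_by exact i.2

lemma resp_congr {α : Type} (σ : (n : ℕ) → (Fin (n + 1) → α) → (Fin n → α) → α) {u v : ℕ → α} (n : ℕ)
    (h : ∀ k ≤ n, u k = v k) : resp σ u n = resp σ v n := by
  induction n using Nat.strong_induction_on with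
  | _ n ih =>
    rw [resp, resp]
    exact congrArg₂ _ (funext fun i => h _ (Nat.lt_succ_iff.1 i.2))
      (funext fun i => ih i i.2 fun k hk => h k (hk.trans i.2.le))

open Pool.Agent.H30.Lad Pool.Agent.H30.Spl in
theorem result : ∃ (X : Type) (_ : TopologicalSpace X), T2Space X ∧ RegularSpace X ∧
    Menger X ∧ BobWinsP X ∧ ¬ BobWinsM X := by
  refine ⟨P, inferInstance, inferInstance, inferInstance, fun 𝒰 h => ?_, ?_, fun ⟨σ, hσ⟩ => ?_⟩
  · choose U U1 U2 using fun n x => (h n).2.symm.subset (mem_univ x)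
    choose a ha using fun n x => (h n).1 _ (U1 n x) x (U2 n x)
    choose b hb using fun x => W1_bdd (countable_range fun n => a n x)
    obtain ⟨C, e1, e2⟩ := lin b
    obtain ⟨x, hx⟩ := (e1.insert (pt (Classical.arbitrary _))).exists_eq_range (insert_nonempty _ _)
    refine ⟨fun n => {U n (x n)}, fun n => ⟨finite_singleton _, singleton_subset_iff.2 (U1 _ _)⟩,
      eq_univ_of_forall fun z => ?_⟩
    obtain ⟨y, e3, e4⟩ := e2 z
    obtain ⟨n, rfl⟩ := hx.subset (Or.inr e3)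
    exact ⟨_, mem_iUnion.2 ⟨n, rfl⟩, ha n _ (N_anti _ (hb _ _ ⟨n, rfl⟩).le e4)⟩
  · have H : ∀ a : Move P, ∃ D ⊆ a.1, D.Countable ∧ ((∀ x ∈ a.1, IsOpen (a.2 x)) →
        univ ⊆ ⋃ x ∈ a.1, a.2 x → univ ⊆ ⋃ x ∈ D, a.2 x) := fun a => by
      by_cases e : (∀ x ∈ a.1, IsOpen (a.2 x)) ∧ univ ⊆ ⋃ x ∈ a.1, a.2 x
      · choose x x1 x2 using fun z => mem_iUnion₂.1 (e.2 (mem_univ z))
        choose b hb using fun z => e.1 _ (x1 z) z (x2 z)
        obtain ⟨C, e1, e2⟩ := lin b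
        exact ⟨x '' C, image_subset_iff.2 fun z _ => x1 z, e1.image x, fun _ _ z _ =>
          let ⟨y, e3, e4⟩ := e2 z; mem_biUnion (mem_image_of_mem x e3) (hb y e4)⟩
      · exact ⟨∅, empty_subset _, countable_empty, fun e1 e2 => absurd ⟨e1, e2⟩ e⟩
    choose d d1 d2 d3 using H
    refine ⟨fun n a _ => d (a (Fin.last n)), fun A D hD => ⟨fun n _ => ?_, fun h => ?_⟩⟩
    · have e : D n = d (A n) := hD n
      exact ⟨e ▸ d1 _, closed_cnt (e ▸ d2 _), disc_cnt (e ▸ d2 _)⟩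
    · have e : D 0 = d (A 0) := hD 0
      exact univ_subset_iff.1 ((d3 _ (fun x hx => ((h 0).1 x hx).1)
        (by simpa [Rest] using (h 0).2.2)).trans (e ▸ subset_iUnion (fun n => ⋃ x ∈ D n, (A n).2 x) 0))
  · let cov : (P → W1) → Set (Set P) := fun g => range fun x => N x (g x)
    have H := fun f : ℕ → P → W1 => hσ (fun n => cov (f n)) (resp σ fun n => cov (f n))
      (fun n => by rw [resp]) fun n => ⟨forall_mem_range.2 fun x => (clopen_N _ _).2,
        eq_univ_of_forall fun x => ⟨_, ⟨x, rfl⟩, mem_N _ _⟩⟩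
    have : Nonempty P := ⟨pt (Classical.arbitrary _)⟩
    obtain ⟨f, z, hz⟩ := no_win (fun f n => Function.invFun (fun x => N x (f n x)) ''
      resp σ (fun n => cov (f n)) n) (fun f g n h => by
        rw [h n le_rfl, resp_congr σ n fun k hk => congrArg cov (h k hk)])
      fun f n => ((H f).1 n).1.image _
    obtain ⟨U, e1, e2⟩ := (H f).2.symm.subset (mem_univ z)
    obtain ⟨n, e3⟩ := mem_iUnion.1 e1
    exact hz n _ ⟨U, e3, rfl⟩ ((Function.invFun_eq (((H f).1 n).2 e3)).symm.subset e2)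

end Pool.Agent.Results.MP_4977a6_gt.Ladder
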